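import Pool.Agent.Lib.MP_0bc52e_nt.Sufficiency

open scoped Pointwise
open Pool.Agent.Lib.MP_0bc52e_nt

namespace Pool.Agent.Results.MP_0bc52e_nt.Criterion

/-- A full-dimensional integer polytope `P` in `ℝ^d` occurs (up to integer equivalence) as a face
of some `n`-dimensional continued fraction, `n ≥ d`, at integer distance `h ≥ 1` from the origin
if and only if there is an integer vector `o` such that for `0 < j < h` no integer point of
`j • P` is congruent to `j • o` modulo `h`. The same holds with the weaker notion of face. -/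
theorem result {d : ℕ} (P : Set (Fin d → ℝ)) (hP : IsIntegerPolytope P)
    (hdim : IsFullDimensional P) (h : ℕ) (hh : 0 < h) :
    (OccursAt P h ↔ ∃ o : Fin d → ℤ, ∀ j : ℕ, 0 < j → j < h → ∀ x : Fin d → ℤ,
      (fun i => (x i : ℝ)) ∈ (j : ℝ) • P → ¬ ∀ i, (h : ℤ) ∣ x i - j * o i) ∧
    (OccursWeaklyAt P h ↔ OccursAt P h) := by
  have h1 : OccursAt P h → Criterion P h := fun H => H.weak.criterion hdim
  have h2 : Criterion P h → OccursAt P h := fun H => H.occursAt hh hP hdim
  have h3 : OccursWeaklyAt P h → Criterion P h := fun H => H.criterion hdim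
  exact ⟨⟨h1, h2⟩, ⟨fun H => h2 (h3 H), fun H => H.weak⟩⟩

end Pool.Agent.Results.MP_0bc52e_nt.Criterion
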