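import Pool.Agent.Lib.MP_0bc52e_nt.FamilySpectrum2

open Pool.Agent.Lib.MP_0bc52e_nt

namespace Pool.Agent.Results.MP_0bc52e_nt.DistanceSpectrum

/-- For every positive integer `c` there is a three-dimensional integer polytope that occurs as a
face of a continued fraction at integer distance `h` exactly when `h` divides `c`. -/
theorem result (c : ℕ) (hc : 0 < c) :
    ∃ P : Set (Fin 3 → ℝ), IsIntegerPolytope P ∧ IsFullDimensional P ∧
      ∀ h : ℕ, 0 < h → (OccursAt P h ↔ h ∣ c) :=
  ⟨famPoly c, famPoly_isIntegerPolytope c, famPoly_isFullDimensional c,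
    fun _ hh => famPoly_occursAt_iff hc hh⟩

end Pool.Agent.Results.MP_0bc52e_nt.DistanceSpectrum
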